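import Pool.Agent.W965.LU.Stms

set_option autoImplicit false

/-! LU-RED : reduction to the two smallest elements. -/

namespace Pool.Agent.W337.LU.Red

open Pool.Agent.W965.LU

theorem main (h : S_END) : S_RED := by
  intro s
  induction s with
  | zero =>
    intro col W k hk
    have hk' : k ≤ W.card := hk
    obtain ⟨X, hX, hXc⟩ := Finset.exists_subset_card_eq hk'
    refine ⟨X, hX, hXc, fun a b => col (insert a (insert b ∅)), ?_⟩
    intro a _ b _ T _ hT _ _
    rw [Finset.card_eq_zero] at hT
    rw [hT]
  | succ s ih =>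
    intro col W k hk
    obtain ⟨X0, hX0, hX0c, hom⟩ := h s col W (B s k) hk
    obtain ⟨X, hX, hXc, ψ, hψ⟩ := ih (fun T => ∃ l ∈ X0, (∀ t ∈ T, t < l) ∧ col (insert l T))
      X0 k hX0c.ge
    refine ⟨X, hX.trans hX0, hXc, ψ, ?_⟩
    intro a ha b hb T hT hTc hab hbT
    have hne : T.Nonempty := by
      rw [← Finset.card_pos]; omega
    obtain ⟨l, hl⟩ : ∃ l, l = T.max' hne := ⟨_, rfl⟩
    have hlT : l ∈ T := by rw [hl]; exact T.max'_mem hne
    have hT' : (T.erase l).card = s := by
      rw [Finset.card_erase_of_mem hlT, hTc]; rfl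
    have hlt : ∀ t ∈ T.erase l, t < l := by
      intro t ht
      rw [Finset.mem_erase] at ht
      have h1 : t ≤ l := by rw [hl]; exact T.le_max' t ht.2
      omega
    have hbT' : ∀ t ∈ T.erase l, b < t := fun t ht => hbT t (Finset.mem_of_mem_erase ht)
    have hbl : b < l := hbT l hlT
    have hU : insert a (insert b T) = insert l (insert a (insert b (T.erase l))) := by
      rw [Finset.insert_comm l a, Finset.insert_comm l b, Finset.insert_erase hlT]
    obtain ⟨U, hUd⟩ : ∃ U, U = insert a (insert b (T.erase l)) := ⟨_, rfl⟩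
    rw [hU, ← hUd]
    have hUl : ∀ t ∈ U, t < l := by
      intro t ht
      rw [hUd, Finset.mem_insert, Finset.mem_insert] at ht
      rcases ht with h1 | h1 | h1
      · omega
      · omega
      · exact hlt t h1
    have hUc : U.card = s + 2 := by
      have hb' : b ∉ T.erase l := fun hc => lt_irrefl b (hbT' b hc)
      have ha' : a ∉ insert b (T.erase l) := by
        rw [Finset.mem_insert]
        rintro (hc | hc)
        · omega
        · have := hbT' a hc; omega
      rw [hUd, Finset.card_insert_of_notMem ha', Finset.card_insert_of_notMem hb', hT']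
    have hUX : U ⊆ X0 := by
      intro t ht
      rw [hUd, Finset.mem_insert, Finset.mem_insert] at ht
      rcases ht with h1 | h1 | h1
      · rw [h1]; exact hX ha
      · rw [h1]; exact hX hb
      · exact hX (hT (Finset.mem_of_mem_erase h1))
    have hlX : l ∈ X0 := hX (hT hlT)
    have h2 := hψ a ha b hb (T.erase l) ((Finset.erase_subset l T).trans hT) hT' hab hbT'
    rw [← hUd] at h2
    rw [← h2]
    constructor
    · intro h3; exact ⟨l, hlX, hUl, h3⟩
    · rintro ⟨l2, hl2, hl2U, h3⟩
      exact (hom U hUX hUc l2 hl2 l hlX hl2U hUl).1 h3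

end Pool.Agent.W337.LU.Red
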